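import Pool.Agent.W937.FG.Stm

set_option autoImplicit false

/-!
# Amplifier macros with errors (task FG-AS1)
-/

namespace Pool.Agent.W298.FG

open Pool.Agent.W937.FG Function

/-! ### Inversion -/

section inv

variable {T K : Type} [DecidableEq K] {e : Bool}

theorem seq_inv {p q : Prog T K} {s u : K → ℕ} {w : List T} (h : Exec e (.seq p q) s w u) :
    ∃ (t : K → ℕ) (w1 w2 : List T), w = w1 ++ w2 ∧ Exec e p s w1 t ∧ Exec e q t w2 u := by
  cases h with
  | seq h1 h2 => exact ⟨_, _, _, rfl, h1, h2⟩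

theorem op_inv {o : Op T K} {s u : K → ℕ} {w : List T} (h : Exec e (.op o) s w u) :
    ExecO e o s w u := by
  cases h with
  | op h => exact h

theorem alt_inv {p q : Prog T K} {s u : K → ℕ} {w : List T} (h : Exec e (.alt p q) s w u) :
    Exec e p s w u ∨ Exec e q s w u := by
  cases h with
  | altl h => exact Or.inl h
  | altr h => exact Or.inr h

/-- Invariants of loops without output. -/
theorem star_inv {p : Prog T K} (P : (K → ℕ) → Prop)
    (hP : ∀ s w s', P s → Exec e p s w s' → w = [] ∧ P s') {s u : K → ℕ} {w : List T}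
    (h : Exec e (.star p) s w u) (hs : P s) : w = [] ∧ P u := by
  generalize hq : Prog.star p = q at h
  induction h with
  | op h => cases hq
  | seq h1 h2 => cases hq
  | altl h => cases hq
  | altr h => cases hq
  | star_nil => exact ⟨rfl, hs⟩
  | star_cons h1 h2 ih1 ih2 =>
    cases hq
    obtain ⟨e1, h3⟩ := hP _ _ _ hs h1
    obtain ⟨e2, h4⟩ := ih2 h3 rfl
    exact ⟨by rw [e1, e2]; rfl, h4⟩

end inv

/-! ### Updates -/

theorem upd_N (n t y : ℕ) (a r : ℕ → ℕ) : update (st n t a r) .N y = st y t a r := by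
  funext i
  cases i <;> simp [update, st]

theorem upd_T (n t y : ℕ) (a r : ℕ → ℕ) : update (st n t a r) .T y = st n y a r := by
  funext i
  cases i <;> simp [update, st]

theorem upd_A (n t j y : ℕ) (a r : ℕ → ℕ) :
    update (st n t a r) (.A j) y = st n t (update a j y) r := by
  funext i
  cases i <;> simp [update, st]

theorem inc_inv {T : Type} {i : Reg} {s u : Reg → ℕ} {w : List T}
    (h : Exec true (incP T i) s w u) : w = [] ∧ u = update s i (s i + 1) := op_inv h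

theorem dec_inv {T : Type} {i : Reg} {s u : Reg → ℕ} {w : List T}
    (h : Exec true (decP T i) s w u) :
    w = [] ∧ ((0 < s i ∧ u = update s i (s i - 1)) ∨ u = s) := by
  have := op_inv h
  obtain ⟨h1, h2⟩ := this
  refine ⟨h1, ?_⟩
  rcases h2 with h2 | ⟨-, h2⟩
  · exact Or.inl h2
  · exact Or.inr h2

theorem zero_inv {T : Type} {i : Reg} {s u : Reg → ℕ} {w : List T}
    (h : Exec true (zeroP T i) s w u) : w = [] ∧ s i = 0 ∧ u = s := op_inv h

theorem zeroA_inv {T : Type} (j : ℕ) : ∀ {s u : Reg → ℕ} {w : List T},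
    Exec true (zeroA T j) s w u → w = [] ∧ u = s ∧ ∀ i < j, s (.A i) = 0 := by
  induction j with
  | zero =>
    intro s u w h
    have := op_inv h
    exact ⟨this.1, this.2, fun i hi => absurd hi (Nat.not_lt_zero i)⟩
  | succ j ih =>
    intro s u w h
    obtain ⟨t, w1, w2, rfl, h1, h2⟩ := seq_inv h
    obtain ⟨e1, rfl, h3⟩ := ih h1
    obtain ⟨e2, h4, rfl⟩ := zero_inv h2
    refine ⟨by rw [e1, e2]; rfl, rfl, ?_⟩
    intro i hi
    rcases Nat.lt_succ_iff_lt_or_eq.mp hi with h5 | rfl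
    · exact h3 i h5
    · exact h4

/-! ### Values -/

theorem F0_iter (m n : ℕ) : (F 0)^[m] n = n + m := by
  induction m generalizing n with
  | zero => rfl
  | succ m ih =>
    rw [iterate_succ_apply, ih]
    show n + 1 + m = n + (m + 1)
    omega

theorem iter_mono (h : PropF) (k : ℕ) {m m' n n' : ℕ} (hm : m ≤ m') (hn : n ≤ n') :
    (F k)^[m] n ≤ (F k)^[m'] n' := by
  obtain ⟨h1, h2, -⟩ := h
  obtain ⟨d, rfl⟩ := Nat.exists_eq_add_of_le hm
  rw [iterate_add_apply]
  apply (h1 k).iterate m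
  have : ∀ d, n' ≤ (F k)^[d] n' := by
    intro d
    induction d with
    | zero => exact le_refl _
    | succ d ih =>
      rw [iterate_succ_apply']
      exact ih.trans (h2 k _)
  exact hn.trans (this d)

theorem V_low (h : PropF) (b : ℕ → ℕ) (i N : ℕ) (hb : ∀ l < i, b l = 0) :
    V b i N = (F i)^[b i] N := by
  cases i with
  | zero => rfl
  | succ i =>
    show (F (i + 1))^[b (i + 1)] (V b i N) = _
    rw [h.2.2.1 b i N (fun j hj => hb j (Nat.lt_succ_of_le hj))]

theorem V_up (h : PropF) (a a' : ℕ → ℕ) (j n n' : ℕ) (hj : ∀ i, j < i → a' i = a i)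
    (hV : V a j n ≤ V a' j n') (k : ℕ) (hk : j ≤ k) : V a k n ≤ V a' k n' := by
  induction k, hk using Nat.le_induction with
  | base => exact hV
  | succ k hk ih =>
    show (F (k + 1))^[a (k + 1)] (V a k n) ≤ (F (k + 1))^[a' (k + 1)] (V a' k n')
    rw [hj (k + 1) (by omega)]
    exact iter_mono h (k + 1) (le_refl _) ih

/-! ### The sweep -/

theorem sweep_inv {T : Type} (i n : ℕ) (a r : ℕ → ℕ) (hi : a i = 0) {w : List T} {u : Reg → ℕ}
    (h : Exec true (sweep T (incP T (.A i))) (st n 0 a r) w u) :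
    w = [] ∧ ∃ c N : ℕ, n ≤ c ∧ c ≤ N ∧ u = st N 0 (update a i c) r := by
  obtain ⟨s1, w1, w2, rfl, h1, h2⟩ := seq_inv h
  obtain ⟨s2, w3, w4, rfl, h3, h4⟩ := seq_inv h2
  obtain ⟨s3, w5, w6, rfl, h5, h6⟩ := seq_inv h4
  obtain ⟨e1, N1, T1, hs1, hn1⟩ := star_inv
    (fun s => ∃ N' T' : ℕ, s = st N' T' (update a i T') r ∧ n ≤ N' + T')
    (by
      rintro s w s' ⟨N', T', rfl, hn⟩ hx
      obtain ⟨t1, x1, x2, rfl, g1, g2⟩ := seq_inv hx
      obtain ⟨t2, x3, x4, rfl, g3, g4⟩ := seq_inv g2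
      obtain ⟨f1, g5⟩ := dec_inv g1
      obtain ⟨f2, rfl⟩ := inc_inv g3
      obtain ⟨f3, rfl⟩ := inc_inv g4
      refine ⟨by rw [f1, f2, f3]; rfl, ?_⟩
      rcases g5 with ⟨g5, rfl⟩ | rfl
      · refine ⟨N' - 1, T' + 1, ?_, ?_⟩
        · rw [upd_N, upd_T, upd_A]
          simp [st]
        · have : 0 < N' := g5
          omega
      · refine ⟨N', T' + 1, ?_, ?_⟩
        · rw [upd_T, upd_A]
          simp [st]
        · omega) h1
    ⟨n, 0, by
      congr 1
      rw [← hi, update_eq_self], by omega⟩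
  subst hs1
  obtain ⟨e2, hN, rfl⟩ := zero_inv h3
  have hN0 : N1 = 0 := hN
  subst hN0
  obtain ⟨e3, N2, T2, hs3, hn2⟩ := star_inv
    (fun s => ∃ N' T' : ℕ, s = st N' T' (update a i T1) r ∧ T1 ≤ N' + T')
    (by
      rintro s w s' ⟨N', T', rfl, hn⟩ hx
      obtain ⟨t1, x1, x2, rfl, g1, g2⟩ := seq_inv hx
      obtain ⟨f1, g5⟩ := dec_inv g1
      obtain ⟨f2, rfl⟩ := inc_inv g2
      refine ⟨by rw [f1, f2]; rfl, ?_⟩
      rcases g5 with ⟨g5, rfl⟩ | rfl
      · refine ⟨N' + 1, T' - 1, ?_, ?_⟩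
        · rw [upd_T, upd_N]
          simp [st]
        · have : 0 < T' := g5
          omega
      · refine ⟨N' + 1, T', ?_, ?_⟩
        · rw [upd_N]
          simp [st]
        · omega) h5 ⟨0, T1, rfl, by omega⟩
  subst hs3
  obtain ⟨e4, hT, rfl⟩ := zero_inv h6
  have hT0 : T2 = 0 := hT
  subst hT0
  refine ⟨by rw [e1, e2, e3, e4]; rfl, T1, N2, by omega, by omega, rfl⟩

/-! ### One macro -/

theorem SM_inv (hF : PropF) {T : Type} (j n : ℕ) (a r : ℕ → ℕ) {w : List T} {u : Reg → ℕ}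
    (h : Exec true (SM T j) (st n 0 a r) w u) :
    w = [] ∧ ∃ (n' : ℕ) (a' : ℕ → ℕ), u = st n' 0 a' r ∧ (∀ i, j < i → a' i = a i) ∧
      V a j n ≤ V a' j n' := by
  cases j with
  | zero =>
    obtain ⟨s1, w1, w2, rfl, h1, h2⟩ := seq_inv h
    obtain ⟨e1, h3⟩ := dec_inv h1
    obtain ⟨e2, rfl⟩ := inc_inv h2
    refine ⟨by rw [e1, e2]; rfl, ?_⟩
    rcases h3 with ⟨h3, rfl⟩ | rfl
    · refine ⟨n + 1, update a 0 (a 0 - 1), ?_, ?_, ?_⟩
      · rw [upd_A, upd_N]
        rfl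
      · intro i hi
        exact update_of_ne (by omega) _ _
      · have h4 : 0 < a 0 := h3
        show (F 0)^[a 0] n ≤ (F 0)^[update a 0 (a 0 - 1) 0] (n + 1)
        rw [update_self, F0_iter, F0_iter]
        omega
    · refine ⟨n + 1, a, ?_, fun _ _ => rfl, ?_⟩
      · rw [upd_N]
        rfl
      · show (F 0)^[a 0] n ≤ (F 0)^[a 0] (n + 1)
        rw [F0_iter, F0_iter]
        omega
  | succ i =>
    obtain ⟨s1, w1, w2, rfl, h1, h2⟩ := seq_inv h
    obtain ⟨e1, rfl, h3⟩ := zeroA_inv (i + 1) h1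
    obtain ⟨s2, w3, w4, rfl, h4, h5⟩ := seq_inv h2
    obtain ⟨e3, h6⟩ := dec_inv h4
    obtain ⟨s3, w5, w6, rfl, h7, h8⟩ := seq_inv h5
    obtain ⟨m, hm, rfl⟩ : ∃ m, ((0 < a (i + 1) ∧ m = a (i + 1) - 1) ∨ m = a (i + 1)) ∧
        s2 = st n 0 (update a (i + 1) m) r := by
      rcases h6 with ⟨h6, rfl⟩ | rfl
      · exact ⟨a (i + 1) - 1, Or.inl ⟨h6, rfl⟩, by rw [upd_A]; rfl⟩
      · exact ⟨a (i + 1), Or.inr rfl, by rw [update_eq_self]⟩
    have hz : ∀ l < i + 1, a l = 0 := h3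
    obtain ⟨e4, c, N, hc, hN, rfl⟩ := sweep_inv i n _ r
      (by rw [update_of_ne (by omega)]; exact hz i (by omega)) h7
    obtain ⟨e5, rfl⟩ := inc_inv h8
    refine ⟨by rw [e1, e3, e4, e5]; rfl, N, update (update a (i + 1) m) i (c + 1), ?_, ?_, ?_⟩
    · rw [upd_A]
      simp [st]
    · intro l hl
      rw [update_of_ne (by omega), update_of_ne (by omega)]
    · rw [V_low hF a (i + 1) n hz]
      show _ ≤ (F (i + 1))^[update (update a (i + 1) m) i (c + 1) (i + 1)]
        (V (update (update a (i + 1) m) i (c + 1)) i N)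
      rw [update_of_ne (by omega), update_self, V_low hF _ i N (by
        intro l hl
        rw [update_of_ne (by omega), update_of_ne (by omega)]
        exact hz l (by omega)), update_self]
      have k1 : F (i + 1) n ≤ (F i)^[c + 1] N := by
        show (F i)^[n + 1] n ≤ _
        exact iter_mono hF i (by omega) (by omega)
      have k2 : n ≤ (F i)^[c + 1] N := (hF.2.1 (i + 1) n).trans k1
      rcases hm with ⟨hpos, rfl⟩ | rfl
      · obtain ⟨q, hq⟩ : ∃ q, a (i + 1) = q + 1 := ⟨a (i + 1) - 1, by omega⟩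
        rw [hq, iterate_succ_apply]
        exact iter_mono hF (i + 1) (by omega) k1
      · exact iter_mono hF (i + 1) (le_refl _) k2

theorem altP_inv {T : Type} (p : ℕ → Prog T Reg) (k : ℕ) {s u : Reg → ℕ} {w : List T}
    (h : Exec true (altP T p k) s w u) : ∃ j ≤ k, Exec true (p j) s w u := by
  induction k with
  | zero => exact ⟨0, le_refl _, h⟩
  | succ k ih =>
    rcases alt_inv h with h1 | h1
    · obtain ⟨j, hj, h2⟩ := ih h1
      exact ⟨j, by omega, h2⟩
    · exact ⟨k + 1, le_refl _, h1⟩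

theorem AS1_main (hF : PropF) : PropAS1 := by
  intro T k n a r w s' h
  exact star_inv (fun s => ∃ (n' : ℕ) (a' : ℕ → ℕ), s = st n' 0 a' r ∧
      (∀ j, k < j → a' j = a j) ∧ V a k n ≤ V a' k n')
    (by
      rintro s w s' ⟨n1, a1, rfl, h1, h2⟩ hx
      obtain ⟨j, hj, h3⟩ := altP_inv _ k hx
      obtain ⟨e1, n2, a2, rfl, h4, h5⟩ := SM_inv hF j n1 a1 r h3
      refine ⟨e1, n2, a2, rfl, ?_, ?_⟩
      · intro i hi
        rw [h4 i (by omega), h1 i hi]
      · exact h2.trans (V_up hF a1 a2 j n1 n2 h4 h5 k hj)) h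
    ⟨n, a, rfl, fun _ _ => rfl, le_refl _⟩

end Pool.Agent.W298.FG

/-- Task FG-AS1. -/
theorem Pool.Agent.W298.FG.AS1.main (h : Pool.Agent.W937.FG.PropF) : Pool.Agent.W937.FG.PropAS1 :=
  Pool.Agent.W298.FG.AS1_main h
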