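import Pool.Agent.W937.FG.Stm

set_option autoImplicit false

/-!
# The diagonal function (task FG-P2)
-/

namespace Pool.Agent.W298.FG.P2

open Pool.Agent.W937.FG Relation

/-- The code of the word `abc m`. -/
def wc (m : ℕ) : List ℕ := List.replicate m 0 ++ List.replicate m 1 ++ List.replicate m 2

theorem replicate_eq (m c : ℕ) : List.replicate m c = (List.range m).map fun _ => c := by
  simp

theorem wc_primrec : Primrec wc := by
  have h : ∀ c : ℕ, Primrec fun m : ℕ => List.replicate m c := by
    intro c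
    have : (fun m : ℕ => List.replicate m c) = fun m : ℕ => (List.range m).map fun _ => c := by
      funext m
      exact replicate_eq m c
    rw [this]
    exact Primrec.list_map Primrec.list_range (Primrec.const c).to₂
  exact Primrec.list_append.comp (Primrec.list_append.comp (h 0) (h 1)) (h 2)

/-- The diagonal function. -/
def diag (D : CG → List ℕ → Bool) (m : ℕ) : ℕ :=
  Option.casesOn (motive := fun _ => ℕ) (Encodable.decode (α := CG) m.pred) 0
    (fun G => cond (D G (wc m)) 0 1)

theorem diag_primrec (D : CG → List ℕ → Bool) (hD : Primrec₂ D) : Primrec (diag D) := by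
  unfold diag
  refine Primrec.option_casesOn (Primrec.decode.comp Primrec.pred) (Primrec.const 0) ?_
  refine Primrec.cond ?_ (Primrec.const 0) (Primrec.const 1)
  exact hD.comp Primrec.snd (wc_primrec.comp Primrec.fst)

theorem diag_encode (D : CG → List ℕ → Bool) (G : CG) :
    diag D (Encodable.encode G + 1) = cond (D G (wc (Encodable.encode G + 1))) 0 1 := by
  simp only [diag, Nat.pred_succ, Encodable.encodek]

section

variable {N : Type} (idx : N → ℕ)

/-- Code of a symbol. -/
def code : Symbol (Fin 3) N → ℕ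
  | .terminal t => t.val
  | .nonterminal A => 3 + idx A

theorem code_inj (hidx : Function.Injective idx) : Function.Injective (code idx) := by
  intro a b h
  cases a with
  | terminal t =>
    cases b with
    | terminal t' =>
      have : t.val = t'.val := h
      rw [Fin.ext this]
    | nonterminal A =>
      have : t.val = 3 + idx A := h
      omega
  | nonterminal A =>
    cases b with
    | terminal t' =>
      have : 3 + idx A = t'.val := h
      omega
    | nonterminal A' =>
      have : 3 + idx A = 3 + idx A' := h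
      rw [hidx (by omega : idx A = idx A')]

/-- Code of a rule. -/
noncomputable def cr (ρ : GRule (Fin 3) N) : List ℕ × List ℕ × List ℕ :=
  (ρ.1.map (code idx), ρ.2.1.map (code idx), ρ.2.2.toList.map fun B => 3 + idx B)

theorem cstep_iff (hidx : Function.Injective idx) (P : Set (GRule (Fin 3) N)) (G : CG)
    (hG : ∀ x, x ∈ G.2 ↔ ∃ ρ ∈ P, x = cr idx ρ) (α : List (Symbol (Fin 3) N)) (β' : List ℕ) :
    CStep G (α.map (code idx)) β' ↔ ∃ β, β' = β.map (code idx) ∧ GStep P α β := by
  have hc := code_inj idx hidx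
  have hm := List.map_injective_iff.mpr hc
  constructor
  · rintro ⟨u, v, l, r, F, hmem, hα, hβ, hF⟩
    obtain ⟨⟨l0, r0, F0⟩, hρ, he⟩ := (hG _).mp hmem
    simp only [cr, Prod.mk.injEq] at he
    obtain ⟨rfl, rfl, rfl⟩ := he
    obtain ⟨ul, v0, rfl, hul, rfl⟩ := List.map_eq_append_iff.mp hα
    obtain ⟨u0, l1, rfl, rfl, hl1⟩ := List.map_eq_append_iff.mp hul
    have hl : l1 = l0 := hm hl1
    subst hl
    refine ⟨u0 ++ r0 ++ v0, by rw [hβ]; simp, u0, v0, l1, r0, F0, hρ, rfl, rfl, ?_⟩
    intro B hB hBα
    apply hF (3 + idx B) (List.mem_map.mpr ⟨B, by simpa using hB, rfl⟩)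
    exact List.mem_map.mpr ⟨_, hBα, rfl⟩
  · rintro ⟨β, rfl, u, v, l, r, F, hρ, rfl, rfl, hF⟩
    refine ⟨u.map (code idx), v.map (code idx), l.map (code idx), r.map (code idx),
      F.toList.map fun B => 3 + idx B, (hG _).mpr ⟨_, hρ, rfl⟩, by simp, by simp, ?_⟩
    intro b hb hbα
    obtain ⟨B, hB, rfl⟩ := List.mem_map.mp hb
    obtain ⟨x, hx, hx'⟩ := List.mem_map.mp hbα
    have : x = Symbol.nonterminal B := hc hx'
    subst this
    exact hF B (by simpa using hB) hx

theorem gen_iff (hidx : Function.Injective idx) (P : Set (GRule (Fin 3) N)) (G : CG)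
    (hG : ∀ x, x ∈ G.2 ↔ ∃ ρ ∈ P, x = cr idx ρ) (α β : List (Symbol (Fin 3) N)) :
    ReflTransGen (CStep G) (α.map (code idx)) (β.map (code idx)) ↔
      ReflTransGen (GStep P) α β := by
  have hm := List.map_injective_iff.mpr (code_inj idx hidx)
  constructor
  · intro h
    have key : ∀ β' : List ℕ, ReflTransGen (CStep G) (α.map (code idx)) β' →
        ∃ β, β' = β.map (code idx) ∧ ReflTransGen (GStep P) α β := by
      intro β' h
      induction h with
      | refl => exact ⟨α, rfl, ReflTransGen.refl⟩
      | tail _ h2 ih =>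
        obtain ⟨γ, rfl, h3⟩ := ih
        obtain ⟨β, rfl, h4⟩ := (cstep_iff idx hidx P G hG γ _).mp h2
        exact ⟨β, rfl, h3.tail h4⟩
    obtain ⟨β1, h1, h2⟩ := key _ h
    rw [hm h1]
    exact h2
  · intro h
    induction h with
    | refl => exact ReflTransGen.refl
    | tail _ h2 ih => exact ih.tail ((cstep_iff idx hidx P G hG _ _).mpr ⟨_, rfl, h2⟩)

theorem abc_code (m : ℕ) :
    (((abc m).map Symbol.terminal : List (Symbol (Fin 3) N))).map (code idx) = wc m := by
  simp [abc, wc, code]

end

theorem main (h : PropP1) : PropP2 := by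
  obtain ⟨D, hD, hDG⟩ := h
  refine ⟨diag D, Primrec.nat_iff.mp (diag_primrec D hD), ?_⟩
  intro N _ S P hP hlen
  obtain ⟨idx, hidx⟩ := exists_injective_nat N
  let G : CG := (code idx (Symbol.nonterminal S), hP.toFinset.toList.map (cr idx))
  have hG : ∀ x, x ∈ G.2 ↔ ∃ ρ ∈ P, x = cr idx ρ := by
    intro x
    show x ∈ hP.toFinset.toList.map (cr idx) ↔ _
    rw [List.mem_map]
    constructor
    · rintro ⟨ρ, hρ, rfl⟩
      exact ⟨ρ, by simpa using hρ, rfl⟩
    · rintro ⟨ρ, hρ, rfl⟩
      exact ⟨ρ, by simpa using hρ, rfl⟩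
  refine ⟨Encodable.encode G + 1, by omega, ?_⟩
  rw [diag_encode]
  have h1 := hDG G (wc (Encodable.encode G + 1)) (by
    intro x hx
    obtain ⟨ρ, hρ, rfl⟩ := (hG x).mp hx
    simpa [cr] using hlen ρ hρ)
  have h2 := gen_iff idx hidx P G hG [Symbol.nonterminal S]
    ((abc (Encodable.encode G + 1)).map Symbol.terminal)
  rw [abc_code] at h2
  have h3 : D G (wc (Encodable.encode G + 1)) = true ↔ GGen P S (abc (Encodable.encode G + 1)) :=
    h1.trans h2
  rw [← h3]
  cases D G (wc (Encodable.encode G + 1)) <;> simp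

end Pool.Agent.W298.FG.P2
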